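import Pool.Agent.helper51.VR.Spec

set_option autoImplicit false

/-!
# Project vr (MP_24e2e7_nt), row DSY: existence of a dual system
-/

namespace Pool.Agent.VR

open Pool.Agent.RB NumberField IsDedekindDomain Module
open scoped nonZeroDivisors Real Classical IsMulCommutative

/-- finitely many primes above `T` -/
theorem DSY_fin (F H : Type) [Field F] [NumberField F] [Field H] [NumberField H] [Algebra F H]
    (T : Finset (HOS F)) : {Q : HOS H | Q.under (𝓞 F) ∈ T}.Finite := by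
  have h1 : {Q : HOS H | Q.under (𝓞 F) ∈ T} = ⋃ p ∈ T, {q : HOS H | q.under (𝓞 F) = p} := by
    ext q
    simp
  rw [h1]
  exact Set.Finite.biUnion (Finset.finite_toSet _) fun p _ => CP2_fin F H p

/-- Fermat -/
theorem DSY_pow (H : Type) [Field H] [NumberField H] (Q : HOS H) (x : H) (hx : Q.valuation H x = 1)
    (m : ℕ) (hm : nm Q - 1 ∣ m) : Q.valuation H (x ^ m - 1) < 1 := by
  have := Q.isMaximal
  let _ : Field (𝓞 H ⧸ Q.asIdeal) := Ideal.Quotient.field Q.asIdeal
  have : Finite (𝓞 H ⧸ Q.asIdeal) := Nat.finite_of_card_ne_zero (by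
    rw [RES_card]
    have := RES_two_le Q
    omega)
  have : Fintype (𝓞 H ⧸ Q.asIdeal) := Fintype.ofFinite _
  have h0 : ∀ n : ℕ, RES_r Q (x ^ n) = RES_r Q x ^ n := by
    intro n
    induction n with
    | zero => rw [pow_zero, pow_zero, RES_r_one]
    | succ n ih =>
      rw [pow_succ, RES_r_mul Q _ _ (by rw [map_pow, hx, one_pow]) hx.le, ih, pow_succ]
  have hx0 : x ≠ 0 := by
    rintro rfl
    rw [map_zero] at hx
    exact zero_ne_one hx
  have h1 : RES_r Q x ≠ 0 := by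
    intro h
    have h2 : RES_r Q (x * x⁻¹) = 0 := by
      rw [RES_r_mul Q _ _ hx.le (by rw [map_inv₀, hx, inv_one]), h, zero_mul]
    rw [mul_inv_cancel₀ hx0, RES_r_one] at h2
    exact one_ne_zero h2
  obtain ⟨k, rfl⟩ := hm
  refine RES_r_eq_one Q _ (by rw [map_pow, hx, one_pow]) ?_
  rw [h0, pow_mul]
  have h3 := FiniteField.pow_card_sub_one_eq_one (RES_r Q x) h1
  rw [← Nat.card_eq_fintype_card, RES_card] at h3
  rw [h3, one_pow]

/-- a generator of a power of a prime -/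
theorem DSY_elt (H : Type) [Field H] [NumberField H] (P : HOS H) :
    ∃ x : H, x ≠ 0 ∧ ∀ Q : HOS H, ord Q x = if Q = P then ((Pr H).index : ℤ) else 0 := by
  have h1 : (Pr H).index • (Finsupp.single P (1 : ℤ) : Dv H) ∈ Pr H :=
    AddSubgroup.nsmul_index_mem _ _
  obtain ⟨x, hx, h2⟩ := h1
  refine ⟨x, hx, fun Q => ?_⟩
  rw [← h2 Q, Finsupp.smul_apply]
  split_ifs with h
  · rw [h, Finsupp.single_eq_same]
    simp
  · rw [Finsupp.single_eq_of_ne h, smul_zero]

theorem DSY_ord_pow {K : Type} [Field K] [NumberField K] (P : HOS K) (x : K) (hx : x ≠ 0) (n : ℕ) :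
    ord P (x ^ n) = n * ord P x := by
  induction n with
  | zero => rw [pow_zero, ord_one]; simp
  | succ n ih =>
    rw [pow_succ, ord_mul P (pow_ne_zero _ hx) hx, ih]
    push_cast
    ring

theorem DSY (hFCT : FCT_stmt) : DSY_stmt := by
  intro F H _ _ _ _ _ _ _ r D
  obtain ⟨f1, f2, f3, f4, f5, f6, f7, f8⟩ := hFCT F H r D
  obtain ⟨o1, o2, o3, o4, o5, o6, o7, o8, o9⟩ := ORD H
  set h : ℕ := (Pr H).index with hh
  have hh0 : h ≠ 0 := by
    rw [hh, fin_dcl H]
    exact Fintype.card_ne_zero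
  choose x hx0 hx using fun j : Fin r => DSY_elt H (D.w j)
  set TT := (DSY_fin F H D.T).toFinset with hTT
  have hTTm : ∀ Q, Q ∈ TT ↔ Q.under (𝓞 F) ∈ D.T := fun Q => by
    rw [hTT, Set.Finite.mem_toFinset]
    exact Iff.rfl
  set k : ℕ := ∏ Q ∈ TT, (nm Q - 1) with hk
  have hk0 : k ≠ 0 := Finset.prod_ne_zero_iff.2 fun Q _ => by
    have := RES_two_le Q
    omega
  have hdiv : ∀ Q : HOS H, Q.under (𝓞 F) ∈ D.T → nm Q - 1 ∣ k := fun Q hQ =>
    Finset.dvd_prod_of_mem (fun Q : HOS H => nm Q - 1) ((hTTm Q).2 hQ)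
  have hcc : ∀ y : H, D.c (D.c y) = y := by
    intro y
    have h1 := congrArg (fun σ : H ≃ₐ[F] H => σ y) f1
    exact h1
  have hact : ∀ Q : HOS H, (act (D.c : H ≃+* H) Q).under (𝓞 F) = Q.under (𝓞 F) := fun Q =>
    o9 F (D.c : H ≃+* H) Q (fun y => D.c.commutes y)
  have hval : ∀ (Q : HOS H) (y : H),
      Q.valuation H (D.c y) = (act (D.c : H ≃+* H) Q).valuation H y := by
    intro Q y
    have h1 := (o6 (D.c : H ≃+* H) Q (D.c y)).1
    have h2 : (D.c : H ≃+* H) (D.c y) = y := hcc y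
    rw [h2] at h1
    exact h1.symm
  have hord : ∀ (Q : HOS H) (y : H), ord Q (D.c y) = ord (act (D.c : H ≃+* H) Q) y := by
    intro Q y
    have h1 := (o6 (D.c : H ≃+* H) Q (D.c y)).2
    have h2 : (D.c : H ≃+* H) (D.c y) = y := hcc y
    rw [h2] at h1
    exact h1.symm
  have hxk : ∀ (j : Fin r) (Q : HOS H), Q.under (𝓞 F) ∈ D.T → Q.valuation H (x j ^ k - 1) < 1 := by
    intro j Q hQ
    refine DSY_pow H Q (x j) ?_ k (hdiv Q hQ)
    rw [← o3 _ Q (hx0 j), hx j Q, if_neg]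
    intro h1
    rw [h1, D.hw] at hQ
    exact D.hvT j hQ
  have hxk0 : ∀ j, x j ^ k ≠ 0 := fun j => pow_ne_zero _ (hx0 j)
  have hck0 : ∀ j, D.c (x j ^ k) ≠ 0 := fun j => (map_ne_zero _).2 (hxk0 j)
  set u : Fin r → Hˣ := fun j => Units.mk0 (x j ^ k / D.c (x j ^ k)) (div_ne_zero (hxk0 j) (hck0 j))
    with hudef
  have hu : ∀ j, (u j : H) = x j ^ k / D.c (x j ^ k) := fun j => rfl
  have hordu : ∀ (j : Fin r) (Q : HOS H), ord Q (u j : H) = (h : ℤ) * k *
      ((if Q = D.w j then 1 else 0) - (if act (D.c : H ≃+* H) Q = D.w j then 1 else 0)) := by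
    intro j Q
    rw [hu, div_eq_mul_inv, ord_mul Q (hxk0 j) (inv_ne_zero (hck0 j)), ord_inv, hord,
      DSY_ord_pow Q _ (hx0 j), DSY_ord_pow (act (D.c : H ≃+* H) Q) _ (hx0 j), hx, hx, ← hh]
    split_ifs <;> ring
  refine ⟨h * k, u, mul_ne_zero hh0 hk0, fun j => ⟨(f5 _).2 ⟨?_, ?_⟩, ?_⟩, fun i j => ?_⟩
  · intro Q hQ
    have h1 := hxk j Q hQ
    have h2 := hxk j (act (D.c : H ≃+* H) Q) (by rw [hact]; exact hQ)
    have h3 : Q.valuation H (D.c (x j ^ k) - 1) < 1 := by
      have h4 : D.c (x j ^ k) - 1 = D.c (x j ^ k - 1) := by rw [map_sub, map_one]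
      rw [h4, hval]
      exact h2
    have h5 : Q.valuation H (D.c (x j ^ k)) = 1 := by
      have h6 : D.c (x j ^ k) = 1 + (D.c (x j ^ k) - 1) := by ring
      rw [h6]
      refine (Valuation.map_add_eq_of_lt_left _ ?_).trans (by simp)
      rw [map_one]
      exact h3
    have h7 : (u j : H) - 1 = ((x j ^ k - 1) - (D.c (x j ^ k) - 1)) * (D.c (x j ^ k))⁻¹ := by
      rw [hu, sub_sub_sub_cancel_right, sub_mul, mul_inv_cancel₀ (hck0 j), div_eq_mul_inv]
    rw [h7, map_mul, map_inv₀, h5, inv_one, mul_one]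
    exact (Valuation.map_sub _ _ _).trans_lt (max_lt h1 h3)
  · intro Q hQ
    rw [hordu, if_neg, if_neg, sub_zero, mul_zero]
    · intro h1
      apply hQ
      rw [← hact Q, h1, D.hw]
      exact Set.mem_range_self j
    · intro h1
      apply hQ
      rw [h1, D.hw]
      exact Set.mem_range_self j
  · rw [hu, map_div₀, hcc]
    rw [div_mul_div_comm, mul_comm, div_self]
    exact mul_ne_zero (hck0 j) (hxk0 j)
  · have h1 : ∀ τ : H ≃ₐ[F] H, (act (τ : H ≃+* H) (D.w i) = D.w j) ↔ (i = j ∧ τ = 1) := by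
      intro τ
      constructor
      · exact f3 i j τ
      · rintro ⟨h2, h3⟩
        rw [h2, h3]
        exact o7 (D.w j)
    have h2 : ∀ τ : H ≃ₐ[F] H,
        (act (D.c : H ≃+* H) (act (τ : H ≃+* H) (D.w i)) = D.w j) ↔ (i = j ∧ τ = D.c) := by
      intro τ
      rw [← o8]
      have h3 : (τ : H ≃+* H).trans (D.c : H ≃+* H) = ((D.c * τ : H ≃ₐ[F] H) : H ≃+* H) := rfl
      rw [h3, h1]
      refine and_congr_right fun _ => ?_
      constructor
      · intro h4
        have h5 : D.c * (D.c * τ) = D.c := by rw [h4, mul_one]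
        rw [← mul_assoc, f1, one_mul] at h5
        exact h5
      · intro h4
        rw [h4, f1]
    apply MonoidAlgebra.coeff_injective
    ext τ
    rw [(vr_orz F H (D.w i)).2.2.2.2 (u j : H) τ, hordu]
    simp only [h1, h2]
    by_cases hij : i = j
    · rw [if_pos hij, MonoidAlgebra.coeff_smul_apply, MonoidAlgebra.coeff_sub, Finsupp.sub_apply,
        MonoidAlgebra.one_def, MonoidAlgebra.coeff_single, MonoidAlgebra.coeff_single,
        Finsupp.single_apply, Finsupp.single_apply, nsmul_eq_mul]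
      simp only [hij, true_and, eq_comm (a := τ)]
      push_cast
      ring
    · rw [if_neg hij]
      simp [hij]

end Pool.Agent.VR
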